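import Mathlib
import Pool.Agent.Lib_MP_8f22fa_ag.Dominate

/-!
# Domination and the statement `C⁺`

`C` is a rigid symmetric monoidal `ℚ`-linear category with `End(𝟙) = ℚ` (for instance
`NChow(k)_ℚ`), and `F` with parity operator `par` is a symmetric monoidal additive functor to super
vector spaces over a field of characteristic zero (for instance `HP_±` or `TP_±(-)_{1/p}`).
-/

open CategoryTheory MonoidalCategory NCSuper

universe u v₁ u₁

namespace Pool.Agent.Results.MP_8f22fa_ag.Domination

/-- **Domination.** If `P` satisfies `C⁺` and homological and numerical equivalence agree on the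
part of parity `s` (even or odd) of `F(P)`, and `P` dominates the part of parity `s` of `F(X)`,
then `X` satisfies `C⁺`, its part of parity `s` is a direct factor of `P`, and homological and
numerical equivalence agree on it. -/
theorem result {C : Type u₁} [Category.{v₁} C] [Preadditive C] [Linear ℚ C] [MonoidalCategory C]
    [MonoidalPreadditive C] [SymmetricCategory C] [RightRigidCategory C]
    (hQ : ∀ t : 𝟙_ C ⟶ 𝟙_ C, ∃ q : ℚ, t = q • 𝟙 (𝟙_ C))
    {K : Type u} [Field K] [CharZero K] (F : C ⥤ ModuleCat.{u} K) [F.Additive] [F.Monoidal]
    (par : F ⟶ F) (hpar : IsParity F par) (X P : C) (s : Bool) (hP : CPlus par P)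
    (hn : HomNum par s P) (hd : Dominates par s X P) :
    CPlus par X ∧ IsFactor par s X P ∧ HomNum par s X :=
  domination hQ hpar s hP hn hd

end Pool.Agent.Results.MP_8f22fa_ag.Domination
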