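import Mathlib
import Pool.Agent.Lib_MP_8f22fa_eul.Conv

/-!
# The even Künneth projector and Euler characteristics of summands of tensor powers

`C` is a rigid symmetric monoidal `ℚ`-linear category with `End(𝟙) = ℚ` (for instance
`NChow(k)_ℚ`), and `F` with parity operator `par` is a symmetric monoidal additive functor to super
vector spaces over a field of characteristic zero (for instance `HP_±` or `TP_±(-)_{1/p}`).
-/

open CategoryTheory MonoidalCategory NCSuper NCEuler

universe u v₁ u₁

namespace Pool.Agent.Results.MP_8f22fa_ag.EulerNonvanishing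

/-- **Non-vanishing of Euler characteristics.** The even projector of `F(X)` is algebraic if and
only if all non-zero summands of all tensor powers of all indecomposable summands of `X` (modulo the
kernel of `F`) have non-zero trace, and if and only if this holds, for every indecomposable summand
`e`, for one tensor power with exponent larger than `|tr(e)|`. -/
theorem result {C : Type u₁} [Category.{v₁} C] [Preadditive C] [Linear ℚ C] [MonoidalCategory C]
    [MonoidalPreadditive C] [SymmetricCategory C] [RightRigidCategory C]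
    (hQ : ∀ t : 𝟙_ C ⟶ 𝟙_ C, ∃ q : ℚ, t = q • 𝟙 (𝟙_ C))
    {K : Type u} [Field K] [CharZero K] (F : C ⥤ ModuleCat.{u} K) [F.Additive] [F.Monoidal]
    (par : F ⟶ F) (hpar : IsParity F par) (X : C) :
    [CPlus par X,
      ∀ e : X ⟶ X, Indec F e → ∀ (n : ℕ) (z : tpow X n ⟶ tpow X n), Summand F z (tmap e n) →
        F.map z ≠ 0 → catTrace z ≠ 0,
      ∀ e : X ⟶ X, Indec F e → ∃ n : ℕ, (∀ q : ℚ, catTrace e = q • 𝟙 (𝟙_ C) → |q| < n) ∧
        ∀ z : tpow X n ⟶ tpow X n, Summand F z (tmap e n) → F.map z ≠ 0 → catTrace z ≠ 0].TFAE := by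
  have hmap : ∀ {Y : C} (f g : Y ⟶ Y), (lift hpar).map f = (lift hpar).map g ↔ F.map f = F.map g :=
    fun f g => ⟨fun h => congrArg (fun t => t.f) h, fun h => NCSign.SVect.hom_ext h⟩
  have hzero : ∀ {Y : C} (f : Y ⟶ Y), (lift hpar).map f = 0 ↔ F.map f = 0 :=
    fun f => ⟨fun h => congrArg (fun t => t.f) h, fun h => NCSign.SVect.hom_ext h⟩
  have hsum : ∀ {Y : C} (z e : Y ⟶ Y), Summand (lift hpar) z e ↔ Summand F z e := by
    intro Y z e
    unfold Summand
    rw [hmap, hmap, hmap]
  have hind : ∀ {Y : C} (e : Y ⟶ Y), Indec (lift hpar) e ↔ Indec F e := by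
    intro Y e
    unfold Indec
    simp only [hmap, hsum, hzero, ne_eq]
  have h := NCEuler.euler (lift hpar) hQ X
  simp only [cplus_lift, hind, hsum, ne_eq, hzero] at h
  exact h

end Pool.Agent.Results.MP_8f22fa_ag.EulerNonvanishing
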