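import Mathlib
import Pool.Agent.Lib_MP_8f22fa_ag.Lift

/-!
# `C⁺` is transported by specialisation and by numerical direct summands

`T` is a symmetric monoidal additive functor, for instance the identity (change of the
cohomology theory), a base change or a specialisation functor.
-/

open CategoryTheory MonoidalCategory NCSuper

universe u v₁ u₁ v₂ u₂ w

namespace Pool.Agent.Results.MP_8f22fa_ag.NumericalTransport

/-- **Transport of `C⁺`.** Let `T : C ⥤ C'` be a symmetric monoidal additive functor, let `F`, `F'`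
be symmetric monoidal functors from `C`, `C'` to super vector spaces over fields `K`, `L` of
characteristic zero, and let `T(X)` be a direct summand of `Y` modulo numerical equivalence. If
`F'(Y)` and `F(X)` have even parts of the same dimension, then `C⁺` for `X` implies `C⁺` for `Y`. -/
theorem result {C : Type u₁} [Category.{v₁} C] [Preadditive C] [Linear ℚ C] [MonoidalCategory C]
    [MonoidalPreadditive C] [SymmetricCategory C] [RightRigidCategory C]
    (hQ : ∀ t : 𝟙_ C ⟶ 𝟙_ C, ∃ q : ℚ, t = q • 𝟙 (𝟙_ C))
    {K : Type u} [Field K] [CharZero K] (F : C ⥤ ModuleCat.{u} K) [F.Additive] [F.Monoidal]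
    (par : F ⟶ F) (hpar : IsParity F par)
    {C' : Type u₂} [Category.{v₂} C'] [Preadditive C'] [Linear ℚ C'] [MonoidalCategory C']
    [MonoidalPreadditive C'] [SymmetricCategory C'] [RightRigidCategory C']
    (hQ' : ∀ t : 𝟙_ C' ⟶ 𝟙_ C', ∃ q : ℚ, t = q • 𝟙 (𝟙_ C'))
    {L : Type w} [Field L] [CharZero L] (F' : C' ⥤ ModuleCat.{w} L) [F'.Additive] [F'.Monoidal]
    (par' : F' ⟶ F') (hpar' : IsParity F' par')
    (T : C ⥤ C') [T.Additive] [T.Braided] (X : C) (Y : C')
    (f : T.obj X ⟶ Y) (g : Y ⟶ T.obj X) (hfg : NumTrivial (f ≫ g - 𝟙 (T.obj X)))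
    (hd : evenDim par' Y = evenDim par X) (h : CPlus par X) : CPlus par' Y := by
  rw [← cplus_lift hpar] at h
  rw [← cplus_lift hpar']
  exact NCSign.cplus_num_transport (lift hpar) (lift hpar') T hQ hQ' X Y f g hfg hd h

end Pool.Agent.Results.MP_8f22fa_ag.NumericalTransport
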