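import Mathlib
import Pool.Agent.Lib_MP_8f22fa_ag.Lift
import Pool.Agent.Lib_MP_8f22fa_ag.SchurCancel

/-!
# Natural direct factors of tensor powers detect `C⁺`
-/

open CategoryTheory MonoidalCategory NCSuper

universe u v₁ u₁

namespace Pool.Agent.Results.MP_8f22fa_ag.SchurCancellation

/-- **Cancellation of Schur functors.** Let `n ≥ 1` and let `Y` be a direct factor of
`X^{⊗n} ⊗ Z` whose projector is a `ℚ`-linear combination of endomorphisms `s ⊗ z`, where `s` is a
permutation of the `n` factors `X` and `z` is an endomorphism of `Z` (for instance `Y` a Schur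
functor of `X` tensor `Z`, or the invariants of a group acting on `Z` and by permutations on
`X^{⊗n}`). If `F(Y)` is not zero and `C⁺` holds for `Y` then it holds for `X`; conversely `C⁺` for
`X` and `Z` implies `C⁺` for `Y`. -/
theorem result {C : Type u₁} [Category.{v₁} C] [Preadditive C] [Linear ℚ C] [MonoidalCategory C]
    [MonoidalPreadditive C] [SymmetricCategory C] [RightRigidCategory C]
    {K : Type u} [Field K] [CharZero K] (F : C ⥤ ModuleCat.{u} K) [F.Additive] [F.Monoidal]
    (par : F ⟶ F) (hpar : IsParity F par) (X Y Z : C) (n : ℕ) (hn : 1 ≤ n)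
    (i : Y ⟶ tpow X n ⊗ Z) (r : tpow X n ⊗ Z ⟶ Y) (hir : i ≫ r = 𝟙 Y)
    (hs : r ≫ i ∈ Submodule.span ℚ {g : tpow X n ⊗ Z ⟶ tpow X n ⊗ Z |
      ∃ (s : tpow X n ⟶ tpow X n) (z : Z ⟶ Z), IsPerm X n s ∧ g = s ⊗ₘ z})
    (hY : Nontrivial (F.obj Y)) :
    (CPlus par Y → CPlus par X) ∧ (CPlus par X → CPlus par Z → CPlus par Y) := by
  rw [← cplus_lift hpar, ← cplus_lift hpar, ← cplus_lift hpar]
  exact ⟨NCSign.cplus_of_schur (lift hpar) X Y Z n hn i r hir hs hY, fun hX hZ =>
    NCSign.cplus_retract (lift hpar) i r hir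
      (NCSign.cplus_tensor (lift hpar) (NCSign.cplus_tpow (lift hpar) hX n) hZ)⟩

end Pool.Agent.Results.MP_8f22fa_ag.SchurCancellation
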